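import Pool.Agent.Q269.GJ.StE
import Pool.Agent.Q299.GR.EB2

/-!
# Project GJ (helper269), job EB2: the large orders (after `Pool/Agent/Q299/GR/EB2.lean`)
-/

set_option autoImplicit false
set_option linter.all false

open scoped Classical
open Finset Polynomial

namespace Pool.Agent.Q182.GJ

open Pool.Agent.Q269.GR (F2 cf ev Un Eb dl IsRt gg Bt AA MM ts HU HG Herm hv own Irn Dn pr Fr xi Pfam dg
  Ce IsCe sT erT FxR owR A0R tn XA XB)
open Pool.Agent.Q269.GJ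
open Pool.Agent.Q299.GR (mem_Dn harm XB_cell zf zf_pos zf8 half_le two_half quarter_le ord_lt)
open Pool.Agent.Y164.PS (L sg Sf)
open Pool.Agent.Y164.HG (Geo Del)

theorem xi_pow (r : ℕ) (hr1 : 1 < r) (u : ℕ) (hu : Nat.Coprime u r) : xi r ^ u = xi r ^ (u % r) := by
  unfold xi
  split_ifs with h
  · conv_lhs => rw [← pow_mod_orderOf, h.choose_spec]
  · have h1 : u ≠ 0 := by
      rintro rfl
      rw [Nat.coprime_zero_left] at hu
      omega
    have h2 : u % r ≠ 0 := by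
      intro h3
      have h4 : r ∣ u := Nat.dvd_of_mod_eq_zero h3
      have h5 : r ∣ Nat.gcd u r := Nat.dvd_gcd h4 dvd_rfl
      rw [hu] at h5
      have := Nat.le_of_dvd (by norm_num) h5
      omega
    rw [zero_pow h1, zero_pow h2]

section one

variable {k : Type} [Field k] [Fintype k] {n : ℕ}

theorem goodA_of (r : ℕ) (hr1 : 1 < r) (a : Fin n → k[X]) (D : k[X])
    (h : ∀ u ∈ range r, Nat.Coprime u r → KD r (xi r ^ u) a D = ⊥) : GoodA r a D := by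
  intro u hu
  rw [xi_pow r hr1 u hu]
  refine h (u % r) (mem_range.mpr (Nat.mod_lt _ (by omega))) ?_
  unfold Nat.Coprime at hu ⊢
  rw [← hu, Nat.gcd_comm u r, Nat.gcd_rec r u]

theorem good_big (h7 : Pool.Agent.Q269.GR.S_PRD) {a : Fin n → k[X]} {Δ : k[X]} (h0 : Δ ≠ 0) {m r : ℕ}
    (hr : m < r) {D : k[X]} (hD : D ∈ Dn Δ m) : GoodA r a D := by
  obtain ⟨h1, h2, h3, h4, h5, h6⟩ := h7 k _ h0
  have hp := (h2 m D hD).2.2
  haveI : IsEmpty {i : {P : k[X] // P ∈ pr D} // r ∣ (i.1).natDegree} := by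
    refine ⟨fun i => ?_⟩
    obtain ⟨⟨P, hP⟩, hi⟩ := i
    obtain ⟨e1, e2, e3⟩ := (hp P).1 hP
    have h7 : P.natDegree ≤ D.natDegree := natDegree_le_of_dvd e3 (mem_Dn.1 hD).1.1.ne_zero
    have h8 : 0 < P.natDegree := e2.natDegree_pos
    have h9 : r ≤ P.natDegree := Nat.le_of_dvd h8 hi
    have h10 := (mem_Dn.1 hD).1.2
    omega
  intro u _
  exact (Submodule.eq_bot_iff _).2 fun x _ => Subsingleton.elim _ _

/-- the error term is homogeneous -/
theorem erT_le (r : ℕ) {m : ℕ} (P0 : Fin m → k[X]) (mv : Finset (Fin m)) (c τ : ℝ) (hc : 1 ≤ c) :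
    erT r P0 mv (c * τ) ≤ c * erT r P0 mv τ := by
  unfold erT
  rw [mul_sum]
  refine sum_le_sum fun i _ => ?_
  rw [mul_sum]
  refine sum_le_sum fun j _ => ?_
  split_ifs
  · have h1 : ∀ x y : ℝ, c * τ * x * y = c * (τ * x * y) := fun x y => by ring
    rw [h1, Real.sqrt_mul (by linarith)]
    refine mul_le_mul_of_nonneg_right ?_ (Real.sqrt_nonneg _)
    rw [Real.sqrt_le_left (by linarith)]
    nlinarith
  · simp

/-- one large order and one root of unity -/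
theorem bad_ru (h1 : S_CLC) (h2 : Pool.Agent.Q269.GR.S_DEC) (h4 : Pool.Agent.Q269.GR.S_ERB)
    (h5 : Pool.Agent.Q269.GR.S_AVP) (h7 : Pool.Agent.Q269.GR.S_PRD) {a : Fin n → k[X]} {N : ℕ}
    (hk : Geo a N) (hq : 5 ≤ Fintype.card k) {M r : ℕ} (hn : 1 ≤ M) (hr : Odd r) (hr1 : 1 < r)
    (hΔ : (Del a).natDegree < r) (ht : tn M ^ 8 < r) (u : ℕ) (hu : Nat.Coprime u r) :
    (((XB (Del a) M).filter fun D => KD r (xi r ^ u) a D ≠ ⊥).card : ℝ) ≤
      (Fintype.card k : ℝ) ^ M * (n / 2 ^ (orderOf (2 : ZMod r) / 2) * ((1 + Real.log M) / r) +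
        n * 2 ^ (n ^ 2 + 4) / 2 ^ (orderOf (2 : ZMod r) / 4) +
          2 ^ n ^ 2 * ((tn M : ℝ) ^ 24 * (6 * (r + 4) * (4 / 5) ^ r))) := by
  set Δ := Del a with hΔd
  have h0 : Δ ≠ 0 := hk.del_ne
  set f := orderOf (2 : ZMod r) with hf
  obtain ⟨W, hW⟩ : ∃ W : ℕ → Prop, ∀ d, W d ↔ r ∣ d := ⟨_, fun _ => Iff.rfl⟩
  set J : k[X] → ℝ := fun D => (((pr D).filter fun P => W P.natDegree).card : ℝ) with hJ
  set c2 : ℝ := n * 2 ^ (n ^ 2 + 4) / 2 ^ (f / 4) +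
    2 ^ n ^ 2 * ((tn M : ℝ) ^ 24 * (6 * (r + 4) * (4 / 5) ^ r)) with hc2
  set ψ : k[X] → ℝ := fun D => n / 2 ^ (f / 2) * J D + c2 with hψ
  have hc20 : 0 ≤ c2 := by positivity
  have key : ∑ D ∈ XB Δ M, (if KD r (xi r ^ u) a D ≠ ⊥ then (1 : ℝ) else 0) ≤ ∑ D ∈ XB Δ M, ψ D := by
    have hpos : ∀ (m : ℕ) (P0 : Fin m → k[X]), Pfam Δ P0 → ∀ i, 0 < dg P0 i := fun m P0 hP i =>
      (hP.irr i).natDegree_pos
    obtain ⟨μ, hμd⟩ : ∃ μ : ℕ → Prop, ∀ d, μ d ↔ (0 < d ∧ r ∣ d) := ⟨_, fun _ => Iff.rfl⟩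
    refine h2 k Δ h0 μ M (XB Δ M) ?_ (filter_subset _ _) ?_ ?_ _ _ ?_
    · intro d hd
      rw [hμd] at hd
      exact lt_of_lt_of_le hΔ (Nat.le_of_dvd hd.1 hd.2)
    · intro D hD P hP P' hP' hμ hdeg
      rw [XB, mem_filter] at hD
      rw [hμd] at hμ
      exact hD.2.2 P hP P' hP' (lt_of_lt_of_le ht (Nat.le_of_dvd hμ.1 hμ.2)) hdeg
    · intro m P0 hc hX T hT
      exact (XB_cell h7 h0 hc hX hT).1
    · intro m P0 hc hX
      have hmv' : ∀ i, i ∈ (univ.filter fun i => μ (dg P0 i)) ↔ r ∣ dg P0 i := by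
        intro i
        rw [mem_filter, hμd]
        exact ⟨fun h => h.2.2, fun h => ⟨mem_univ i, hpos m P0 hc.fam i, h⟩⟩
      revert hc hX hmv'
      generalize (univ.filter fun i => μ (dg P0 i)) = mv
      intro hc hX hmv'
      have hψT : ∀ T ∈ Fintype.piFinset (Ce P0 mv), ψ (∏ i, T i) = n / 2 ^ (f / 2) * mv.card + c2 := by
        intro T hT
        obtain ⟨_, e1, e2, e3, _⟩ := XB_cell h7 h0 hc hX hT
        have e4 : J (∏ i, T i) = mv.card := by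
          simp only [hJ]
          rw [e1, filter_image, card_image_of_injective _ e3]
          congr 2
          ext i
          rw [mem_filter, hmv' i, e2 i, hW]
          simp
        simp only [hψ]
        rw [e4]
      rw [sum_congr rfl hψT, sum_const, nsmul_eq_mul]
      have hcl := h1 k hk.hk hk.hm hq Δ h0 n hk.hn hk.hn3 a m P0 mv r hr hr1 hmv' hc u hu
      have e5 : ∑ T ∈ Fintype.piFinset (Ce P0 mv), (if KD r (xi r ^ u) a (∏ i, T i) ≠ ⊥ then (1 : ℝ) else 0) =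
          (((Fintype.piFinset (Ce P0 mv)).filter fun T => KD r (xi r ^ u) a (∏ i, T i) ≠ ⊥).card : ℝ) := by
        rw [sum_boole]
      rw [e5]
      refine hcl.trans ?_
      rw [mul_comm]
      refine mul_le_mul_of_nonneg_left ?_ (Nat.cast_nonneg _)
      by_cases hne : (Fintype.piFinset (Ce P0 mv)).Nonempty
      · obtain ⟨T, hT⟩ := hne
        have hm : m ≤ tn M ^ 12 := (XB_cell h7 h0 hc hX hT).2.2.2.2
        have hmm : (m : ℝ) ^ 2 ≤ (tn M : ℝ) ^ 24 := by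
          have : (m : ℝ) ≤ (tn M : ℝ) ^ 12 := by exact_mod_cast hm
          calc (m : ℝ) ^ 2 ≤ ((tn M : ℝ) ^ 12) ^ 2 := pow_le_pow_left₀ (Nat.cast_nonneg _) this 2
            _ = (tn M : ℝ) ^ 24 := by rw [← pow_mul]
        have her := h4 k hq Δ m r P0 mv hr hr1 hmv' hc
        have her0 : erT r P0 mv (2 ^ (n ^ 2 + 1) * 2 ^ ((r - 1) / 2)) ≤
            2 ^ n ^ 2 * erT r P0 mv (8 * 2 ^ ((r - 1) / 2)) := by
          have hn9 : 9 ≤ n ^ 2 := by
            have := hk.hn3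
            nlinarith
          have g1 := erT_le r P0 mv (2 ^ (n ^ 2 - 2)) (8 * 2 ^ ((r - 1) / 2)) (one_le_pow₀ (by norm_num))
          have g2 : (2 : ℝ) ^ (n ^ 2 - 2) * (8 * 2 ^ ((r - 1) / 2)) = 2 ^ (n ^ 2 + 1) * 2 ^ ((r - 1) / 2) := by
            rw [← mul_assoc]
            congr 1
            rw [show (8 : ℝ) = 2 ^ 3 by norm_num, ← pow_add]
            congr 1
            omega
          rw [g2] at g1
          refine g1.trans (mul_le_mul_of_nonneg_right ?_ ?_)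
          · exact pow_le_pow_right₀ (by norm_num) (by omega)
          · unfold erT
            refine sum_nonneg fun i _ => sum_nonneg fun j _ => ?_
            split_ifs
            · exact Real.sqrt_nonneg _
            · exact le_rfl
        have her' : erT r P0 mv (2 ^ (n ^ 2 + 1) * 2 ^ ((r - 1) / 2)) ≤
            2 ^ n ^ 2 * ((tn M : ℝ) ^ 24 * (6 * (r + 4) * (4 / 5) ^ r)) :=
          her0.trans (mul_le_mul_of_nonneg_left
            (her.trans (mul_le_mul_of_nonneg_right hmm (by positivity))) (by positivity))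
        have p1 : (0 : ℝ) ≤ n / 2 ^ (f / 2) * mv.card := by positivity
        have p2 : (0 : ℝ) ≤ n * 2 ^ (n ^ 2 + 4) / 2 ^ (f / 4) := by positivity
        have p3 : (0 : ℝ) ≤ 2 ^ n ^ 2 * ((tn M : ℝ) ^ 24 * (6 * (r + 4) * (4 / 5) ^ r)) := by positivity
        split_ifs with g1 g2
        · have e6 : (n : ℝ) * mv.card / 2 ^ (f / 2) = n / 2 ^ (f / 2) * mv.card := by ring
          rw [e6, hc2]
          linarith
        · rw [hc2]
          linarith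
        · linarith
      · rw [not_nonempty_iff_eq_empty] at hne
        exfalso
        have hP0 : P0 ∈ Fintype.piFinset (Ce P0 mv) := by
          rw [Fintype.mem_piFinset]
          intro i
          unfold Ce
          split_ifs
          · rw [Irn, mem_filter, Pool.Agent.H341R2.Sharp.mem_Mon]
            exact ⟨⟨hc.fam.mon i, rfl⟩, hc.fam.irr i⟩
          · exact mem_singleton_self _
        rw [hne] at hP0
        exact absurd hP0 (notMem_empty _)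
  obtain ⟨a1, a2, a3⟩ := h5 k hq Δ h0 M hn
  have hJsum : ∑ D ∈ XB Δ M, J D ≤ (Fintype.card k : ℝ) ^ M * ((1 + Real.log M) / r) := by
    calc ∑ D ∈ XB Δ M, J D ≤ ∑ D ∈ Dn Δ M, J D :=
          sum_le_sum_of_subset_of_nonneg (filter_subset _ _) fun _ _ _ => Nat.cast_nonneg _
      _ ≤ (Fintype.card k : ℝ) ^ M * ∑ d ∈ (Icc 1 M).filter W, 1 / (d : ℝ) := a2 W
      _ ≤ _ := mul_le_mul_of_nonneg_left (harm M r (by omega) W hW) (by positivity)
  have hXcard : ((XB Δ M).card : ℝ) ≤ (Fintype.card k : ℝ) ^ M := by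
    refine le_trans ?_ a1
    exact_mod_cast card_le_card (filter_subset _ _)
  have e7 : (((XB Δ M).filter fun D => KD r (xi r ^ u) a D ≠ ⊥).card : ℝ) =
      ∑ D ∈ XB Δ M, (if KD r (xi r ^ u) a D ≠ ⊥ then (1 : ℝ) else 0) := by
    rw [sum_boole]
  rw [e7]
  refine key.trans ?_
  simp only [hψ]
  rw [sum_add_distrib, ← mul_sum, sum_const, nsmul_eq_mul]
  have p4 : (0 : ℝ) ≤ n / 2 ^ (f / 2) := by positivity
  have g1 := mul_le_mul_of_nonneg_left hJsum p4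
  have g2 := mul_le_mul_of_nonneg_right hXcard hc20
  calc n / 2 ^ (f / 2) * ∑ D ∈ XB Δ M, J D + ((XB Δ M).card : ℝ) * c2
      ≤ n / 2 ^ (f / 2) * ((Fintype.card k : ℝ) ^ M * ((1 + Real.log M) / r)) +
        (Fintype.card k : ℝ) ^ M * c2 := add_le_add g1 g2
    _ = _ := by
        rw [hc2]
        ring

/-- one large order -/
theorem bad_r (h1 : S_CLC) (h2 : Pool.Agent.Q269.GR.S_DEC) (h4 : Pool.Agent.Q269.GR.S_ERB)
    (h5 : Pool.Agent.Q269.GR.S_AVP) (h7 : Pool.Agent.Q269.GR.S_PRD) {a : Fin n → k[X]} {N : ℕ}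
    (hk : Geo a N) (hq : 5 ≤ Fintype.card k) {M r : ℕ} (hn : 1 ≤ M) (hr : Odd r) (hr1 : 1 < r)
    (hΔ : (Del a).natDegree < r) (ht : tn M ^ 8 < r) :
    (((XB (Del a) M).filter fun D => ¬ GoodA r a D).card : ℝ) ≤
      (Fintype.card k : ℝ) ^ M * (r * (n / 2 ^ (orderOf (2 : ZMod r) / 2) * ((1 + Real.log M) / r) +
        n * 2 ^ (n ^ 2 + 4) / 2 ^ (orderOf (2 : ZMod r) / 4) +
          2 ^ n ^ 2 * ((tn M : ℝ) ^ 24 * (6 * (r + 4) * (4 / 5) ^ r)))) := by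
  set B : ℝ := n / 2 ^ (orderOf (2 : ZMod r) / 2) * ((1 + Real.log M) / r) +
        n * 2 ^ (n ^ 2 + 4) / 2 ^ (orderOf (2 : ZMod r) / 4) +
          2 ^ n ^ 2 * ((tn M : ℝ) ^ 24 * (6 * (r + 4) * (4 / 5) ^ r)) with hB
  have hl : 0 ≤ Real.log M := Real.log_natCast_nonneg M
  have hB0 : 0 ≤ B := by positivity
  set U : Finset ℕ := (range r).filter fun u => Nat.Coprime u r with hU
  have hsub : ((XB (Del a) M).filter fun D => ¬ GoodA r a D) ⊆
      U.biUnion fun u => (XB (Del a) M).filter fun D => KD r (xi r ^ u) a D ≠ ⊥ := by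
    intro D hD
    rw [mem_filter] at hD
    obtain ⟨hD1, hD2⟩ := hD
    rw [mem_biUnion]
    by_contra hcon
    push Not at hcon
    apply hD2
    refine goodA_of r hr1 a D fun u hu hur => ?_
    by_contra hne
    exact hcon u (by rw [hU, mem_filter]; exact ⟨hu, hur⟩) (by rw [mem_filter]; exact ⟨hD1, hne⟩)
  have h8 : (((XB (Del a) M).filter fun D => ¬ GoodA r a D).card : ℝ) ≤
      ∑ u ∈ U, (((XB (Del a) M).filter fun D => KD r (xi r ^ u) a D ≠ ⊥).card : ℝ) := by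
    have := (card_le_card hsub).trans card_biUnion_le
    exact_mod_cast this
  have h9 : ∀ u ∈ U, (((XB (Del a) M).filter fun D => KD r (xi r ^ u) a D ≠ ⊥).card : ℝ) ≤
      (Fintype.card k : ℝ) ^ M * B := by
    intro u hu
    rw [hU, mem_filter] at hu
    exact bad_ru h1 h2 h4 h5 h7 hk hq hn hr hr1 hΔ ht u hu.2
  refine h8.trans ((sum_le_sum h9).trans ?_)
  rw [sum_const, nsmul_eq_mul]
  have hUc : (U.card : ℝ) ≤ r := by
    have : U.card ≤ (range r).card := card_le_card (filter_subset _ _)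
    rw [card_range] at this
    exact_mod_cast this
  have h10 : 0 ≤ (Fintype.card k : ℝ) ^ M * B := by positivity
  calc (U.card : ℝ) * ((Fintype.card k : ℝ) ^ M * B) ≤ r * ((Fintype.card k : ℝ) ^ M * B) :=
        mul_le_mul_of_nonneg_right hUc h10
    _ = (Fintype.card k : ℝ) ^ M * (r * B) := by ring

end one

theorem zf_le {r : ℕ} (hr0 : 0 < r) (h8 : r ^ 8 ≤ 2 ^ orderOf (2 : ZMod r)) :
    zf (orderOf (2 : ZMod r)) ≤ 1 / r := by
  have hr : (0 : ℝ) < r := by exact_mod_cast hr0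
  have h1 : zf (orderOf (2 : ZMod r)) ^ 8 ≤ (1 / (r : ℝ)) ^ 8 := by
    rw [zf8, one_div_pow]
    apply one_div_le_one_div_of_le (by positivity)
    exact_mod_cast h8
  exact le_of_pow_le_pow_left₀ (by norm_num) (by positivity) h1

/-- the first term -/
theorem first_le (n : ℕ) {r t : ℕ} (hr0 : 0 < r) (h8 : r ^ 8 ≤ 2 ^ orderOf (2 : ZMod r)) (ht : 1 ≤ t)
    (htr : t ^ 8 < r) {l : ℝ} (hl0 : 0 ≤ 1 + l) (hl : l ≤ ((t : ℝ) + 1) ^ 10) :
    r * (n / (2 : ℝ) ^ (orderOf (2 : ZMod r) / 2) * ((1 + l) / r)) ≤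
      4096 * n / t * zf (orderOf (2 : ZMod r)) := by
  set f := orderOf (2 : ZMod r)
  have ht1 : (1 : ℝ) ≤ t := by exact_mod_cast ht
  have ht0 : (0 : ℝ) < t := by linarith
  have htr' : (t : ℝ) ^ 8 ≤ r := by exact_mod_cast htr.le
  have hr : (0 : ℝ) < r := by exact_mod_cast hr0
  have hz := zf_le hr0 h8
  have hzt : zf f ≤ 1 / (t : ℝ) ^ 8 := hz.trans (one_div_le_one_div_of_le (by positivity) htr')
  have hz4 : zf f ^ 4 ≤ (1 / (t : ℝ) ^ 8) ^ 3 * zf f := by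
    calc zf f ^ 4 = zf f ^ 3 * zf f := by ring
      _ ≤ (1 / (t : ℝ) ^ 8) ^ 3 * zf f :=
        mul_le_mul_of_nonneg_right (pow_le_pow_left₀ (zf_pos f).le hzt 3) (zf_pos f).le
  have h10 : 1 + l ≤ 2048 * (t : ℝ) ^ 10 := by
    have h3 : ((t : ℝ) + 1) ^ 10 ≤ (2 * t) ^ 10 := pow_le_pow_left₀ (by positivity) (by linarith) 10
    have h4 : (2 * (t : ℝ)) ^ 10 = 1024 * (t : ℝ) ^ 10 := by ring
    have h5 : (1 : ℝ) ≤ (t : ℝ) ^ 10 := one_le_pow₀ ht1
    linarith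
  have h12 : (n : ℝ) / (2 : ℝ) ^ (f / 2) ≤ n * (2 * ((1 / (t : ℝ) ^ 8) ^ 3 * zf f)) := by
    have h13 := half_le f
    calc (n : ℝ) / (2 : ℝ) ^ (f / 2) = n * (1 / (2 : ℝ) ^ (f / 2)) := by ring
      _ ≤ n * (2 * zf f ^ 4) := mul_le_mul_of_nonneg_left h13 (by positivity)
      _ ≤ _ := mul_le_mul_of_nonneg_left (by linarith) (by positivity)
  have hzp := zf_pos f
  have e1 : r * ((n : ℝ) / (2 : ℝ) ^ (f / 2) * ((1 + l) / r)) = (n : ℝ) / (2 : ℝ) ^ (f / 2) * (1 + l) := by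
    field_simp
  rw [e1]
  calc (n : ℝ) / (2 : ℝ) ^ (f / 2) * (1 + l)
      ≤ n * (2 * ((1 / (t : ℝ) ^ 8) ^ 3 * zf f)) * (2048 * (t : ℝ) ^ 10) :=
        mul_le_mul h12 h10 hl0 (by positivity)
    _ = 4096 * n / (t : ℝ) ^ 14 * zf f := by
        field_simp
        ring
    _ ≤ 4096 * n / t * zf f := by
        refine mul_le_mul_of_nonneg_right ?_ hzp.le
        refine div_le_div_of_nonneg_left (by positivity) ht0 ?_
        calc (t : ℝ) = t ^ 1 := (pow_one _).symm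
          _ ≤ t ^ 14 := pow_le_pow_right₀ ht1 (by norm_num)

/-- the other terms -/
noncomputable def gt (n r : ℕ) : ℝ :=
  n * 2 ^ (n ^ 2 + 5) * (if Odd r then (2 : ℝ) ^ (-(1 / 8 * (orderOf (2 : ZMod r) : ℝ))) else 0) +
    2 ^ n ^ 2 * (6 * ((r : ℝ) ^ 5 * (4 / 5) ^ r + 4 * ((r : ℝ) ^ 4 * (4 / 5) ^ r)))

theorem gt_nonneg (n r : ℕ) : 0 ≤ gt n r := by
  unfold gt
  have : (0 : ℝ) ≤ if Odd r then (2 : ℝ) ^ (-(1 / 8 * (orderOf (2 : ZMod r) : ℝ))) else 0 := by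
    split_ifs
    · positivity
    · exact le_rfl
  positivity

theorem gt_sum (n : ℕ) (h : Pool.Agent.Q269.GR.S_ORD) : Summable (gt n) := by
  unfold gt
  have h1 := (h (1 / 8) (by norm_num)).mul_left ((n : ℝ) * 2 ^ (n ^ 2 + 5))
  have h2 : Summable fun r : ℕ => (r : ℝ) ^ 5 * (4 / 5 : ℝ) ^ r :=
    summable_pow_mul_geometric_of_norm_lt_one 5 (by rw [Real.norm_eq_abs]; norm_num [abs_of_pos])
  have h3 : Summable fun r : ℕ => (r : ℝ) ^ 4 * (4 / 5 : ℝ) ^ r :=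
    summable_pow_mul_geometric_of_norm_lt_one 4 (by rw [Real.norm_eq_abs]; norm_num [abs_of_pos])
  exact h1.add (((h2.add (h3.mul_left 4)).mul_left 6).mul_left (2 ^ n ^ 2))

theorem quarter_le' (f : ℕ) : 1 / (2 : ℝ) ^ (f / 4) ≤ 2 * zf f ^ 2 := by
  refine (quarter_le f).trans (le_of_eq ?_)
  unfold zf
  rw [← Real.rpow_natCast, ← Real.rpow_mul (by norm_num)]
  congr 2
  push_cast
  ring

theorem rest_le (n : ℕ) {r t : ℕ} (hr : Odd r) (hr0 : 0 < r) (h8 : r ^ 8 ≤ 2 ^ orderOf (2 : ZMod r))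
    (htr : t ^ 8 < r) :
    r * (n * 2 ^ (n ^ 2 + 4) / (2 : ℝ) ^ (orderOf (2 : ZMod r) / 4) +
      2 ^ n ^ 2 * ((t : ℝ) ^ 24 * (6 * (r + 4) * (4 / 5) ^ r))) ≤ gt n r := by
  unfold gt
  rw [if_pos hr]
  set f := orderOf (2 : ZMod r)
  have hrr : (0 : ℝ) < r := by exact_mod_cast hr0
  have h1 := quarter_le' f
  have hz := zf_le hr0 h8
  have hzp := zf_pos f
  have h2 : (t : ℝ) ^ 24 ≤ (r : ℝ) ^ 3 := by
    have h3 : (t ^ 8) ^ 3 ≤ r ^ 3 := Nat.pow_le_pow_left htr.le 3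
    rw [← pow_mul] at h3
    exact_mod_cast h3
  have h4 : r * (1 / (2 : ℝ) ^ (f / 4)) ≤ 2 * zf f := by
    calc r * (1 / (2 : ℝ) ^ (f / 4)) ≤ r * (2 * zf f ^ 2) := mul_le_mul_of_nonneg_left h1 hrr.le
      _ = 2 * (r * zf f) * zf f := by ring
      _ ≤ 2 * (r * (1 / r)) * zf f := by
          refine mul_le_mul_of_nonneg_right ?_ hzp.le
          refine mul_le_mul_of_nonneg_left ?_ (by norm_num)
          exact mul_le_mul_of_nonneg_left hz hrr.le
      _ = 2 * zf f := by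
          field_simp
  have e0 : (2 : ℝ) ^ (-(1 / 8 * (f : ℝ))) = zf f := rfl
  rw [e0]
  have h5 : r * ((n : ℝ) * 2 ^ (n ^ 2 + 4) / (2 : ℝ) ^ (f / 4)) ≤ n * 2 ^ (n ^ 2 + 5) * zf f := by
    calc r * ((n : ℝ) * 2 ^ (n ^ 2 + 4) / (2 : ℝ) ^ (f / 4))
        = n * 2 ^ (n ^ 2 + 4) * (r * (1 / (2 : ℝ) ^ (f / 4))) := by ring
      _ ≤ n * 2 ^ (n ^ 2 + 4) * (2 * zf f) := mul_le_mul_of_nonneg_left h4 (by positivity)
      _ = n * 2 ^ (n ^ 2 + 5) * zf f := by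
          rw [pow_succ (2 : ℝ) (n ^ 2 + 4)]
          ring
  have h6 : r * (2 ^ n ^ 2 * ((t : ℝ) ^ 24 * (6 * (r + 4) * (4 / 5) ^ r))) ≤
      2 ^ n ^ 2 * (6 * ((r : ℝ) ^ 5 * (4 / 5) ^ r + 4 * ((r : ℝ) ^ 4 * (4 / 5) ^ r))) := by
    have h7 : (0 : ℝ) ≤ 6 * (r + 4) * (4 / 5) ^ r := by positivity
    have h9 := mul_le_mul_of_nonneg_right h2 h7
    calc r * (2 ^ n ^ 2 * ((t : ℝ) ^ 24 * (6 * (r + 4) * (4 / 5) ^ r)))
        = r * 2 ^ n ^ 2 * ((t : ℝ) ^ 24 * (6 * (r + 4) * (4 / 5) ^ r)) := by ring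
      _ ≤ r * 2 ^ n ^ 2 * ((r : ℝ) ^ 3 * (6 * (r + 4) * (4 / 5) ^ r)) :=
          mul_le_mul_of_nonneg_left h9 (by positivity)
      _ = _ := by ring
  rw [mul_add]
  linarith

/-- the proof of the job -/
theorem t_EB2 (h1 : S_CLC) (h2 : Pool.Agent.Q269.GR.S_DEC) (h3 : Pool.Agent.Q269.GR.S_TYB)
    (h4 : Pool.Agent.Q269.GR.S_ERB) (h5 : Pool.Agent.Q269.GR.S_AVP) (h6 : Pool.Agent.Q269.GR.S_TNP)
    (h7 : Pool.Agent.Q269.GR.S_PRD) (h8 : Pool.Agent.Q269.GR.S_ORD) : S_EB2 := by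
  intro k _ _ n a N hk hq5 R ε hε
  set Δ := Del a with hΔ
  have h0 : Δ ≠ 0 := hk.del_ne
  set q : ℝ := (Fintype.card k : ℝ) with hq
  obtain ⟨s, hs⟩ := (summable_iff_vanishing_norm.1 (gt_sum n h8)) (ε / 4) (by positivity)
  have hz : Summable fun r : ℕ => if Odd r then zf (orderOf (2 : ZMod r)) else 0 :=
    h8 (1 / 8) (by norm_num)
  have hz0 : ∀ r : ℕ, (0 : ℝ) ≤ if Odd r then zf (orderOf (2 : ZMod r)) else 0 := by
    intro r
    split_ifs
    · exact (zf_pos _).le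
    · exact le_rfl
  set S : ℝ := ∑' r : ℕ, if Odd r then zf (orderOf (2 : ZMod r)) else 0 with hS
  have hS0 : 0 ≤ S := tsum_nonneg hz0
  have hev : ∀ᶠ t : ℕ in Filter.atTop, 4096 * n / (t : ℝ) * S ≤ ε / 4 := by
    have h9 : Filter.Tendsto (fun t : ℕ => 4096 * n / (t : ℝ) * S) Filter.atTop (nhds (0 * S)) :=
      (tendsto_const_div_atTop_nhds_zero_nat (4096 * (n : ℝ))).mul_const S
    rw [zero_mul] at h9
    exact h9.eventually_le_const (by positivity)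
  filter_upwards [h3 k hq5 Δ h0 (ε / 4) (by positivity), h6.1.eventually hev,
    h6.1.eventually (Filter.eventually_ge_atTop 1),
    h6.1.eventually (Filter.eventually_ge_atTop Δ.natDegree),
    h6.1.eventually (Filter.eventually_ge_atTop (s.sup id)),
    h6.1.eventually (Filter.eventually_ge_atTop R),
    Filter.eventually_ge_atTop 1] with m n1 n2 n3 n4 n5 nR n6
  set t := tn m with ht
  have ht8 : t ≤ t ^ 8 := by
    calc t = t ^ 1 := (pow_one t).symm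
      _ ≤ t ^ 8 := Nat.pow_le_pow_right (by omega) (by norm_num)
  obtain ⟨l1, l2⟩ := h6.2 m n6
  have hl0 : 0 ≤ 1 + Real.log m := by
    have : 0 ≤ Real.log m := Real.log_natCast_nonneg m
    linarith
  set RR : Finset ℕ := (Ioc (t ^ 8) m).filter fun r => OO R r with hRR
  have hsub : ((Dn Δ m).filter fun D => ∃ r : ℕ, OO R r ∧ t ^ 8 < r ∧ ¬ GoodA r a D) ⊆
      (Dn Δ m \ XB Δ m) ∪ RR.biUnion fun r => (XB Δ m).filter fun D => ¬ GoodA r a D := by
    intro D hD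
    rw [mem_filter] at hD
    obtain ⟨hD1, r, r1, r3, r4⟩ := hD
    rw [mem_union]
    by_cases hX : D ∈ XB Δ m
    · right
      rw [mem_biUnion]
      have hrn : r ≤ m := by
        by_contra hc
        exact r4 (good_big h7 h0 (by omega) hD1)
      refine ⟨r, ?_, ?_⟩
      · rw [hRR, mem_filter, mem_Ioc]
        exact ⟨⟨r3, hrn⟩, r1⟩
      · rw [mem_filter]
        exact ⟨hX, r4⟩
    · left
      rw [Finset.mem_sdiff]
      exact ⟨hD1, hX⟩
  have hcard : ((((Dn Δ m).filter fun D => ∃ r : ℕ, OO R r ∧ t ^ 8 < r ∧ ¬ GoodA r a D).card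
      : ℕ) : ℝ) ≤ ((Dn Δ m \ XB Δ m).card : ℝ) +
        ∑ r ∈ RR, (((XB Δ m).filter fun D => ¬ GoodA r a D).card : ℝ) := by
    have g1 := (card_le_card hsub).trans ((card_union_le _ _).trans
      (Nat.add_le_add_left card_biUnion_le _))
    exact_mod_cast g1
  have hterm : ∀ r ∈ RR, (((XB Δ m).filter fun D => ¬ GoodA r a D).card : ℝ) ≤
      q ^ m * (4096 * n / t * zf (orderOf (2 : ZMod r)) + gt n r) := by
    intro r hr
    rw [hRR, mem_filter, mem_Ioc] at hr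
    obtain ⟨⟨r1, r2⟩, r3, r4, r5⟩ := hr
    have r6 := r5 (lt_of_le_of_lt (nR.trans ht8) r1)
    refine (bad_r h1 h2 h4 h5 h7 hk hq5 n6 r3 r4 (lt_of_le_of_lt (n4.trans ht8) r1) r1).trans ?_
    refine mul_le_mul_of_nonneg_left ?_ (by positivity)
    have g1 := first_le n (by omega) r6 n3 r1 hl0 l2.le
    have g2 := rest_le n (t := t) r3 (by omega) r6 r1
    have g3 : ∀ x y z w : ℝ, w * (x + y + z) = w * x + w * (y + z) := fun x y z w => by ring
    rw [g3]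
    linarith
  have hsum1 : ∑ r ∈ RR, zf (orderOf (2 : ZMod r)) ≤ S := by
    calc ∑ r ∈ RR, zf (orderOf (2 : ZMod r))
        = ∑ r ∈ RR, (if Odd r then zf (orderOf (2 : ZMod r)) else 0) := by
          refine sum_congr rfl fun r hr => ?_
          rw [hRR, mem_filter] at hr
          rw [if_pos hr.2.1]
      _ ≤ S := hz.sum_le_tsum _ fun r _ => hz0 r
  have hsum2 : ∑ r ∈ RR, gt n r ≤ ε / 4 := by
    have hdis : Disjoint RR s := by
      rw [Finset.disjoint_left]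
      intro r hr hrs
      rw [hRR, mem_filter, mem_Ioc] at hr
      have : r ≤ s.sup id := Finset.le_sup (f := id) hrs
      omega
    have g1 := hs RR hdis
    rw [Real.norm_eq_abs, abs_of_nonneg (sum_nonneg fun r _ => gt_nonneg n r)] at g1
    exact g1.le
  have hqn : 0 ≤ q ^ m := by positivity
  have ht0 : (0 : ℝ) ≤ 4096 * n / t := by positivity
  calc ((((Dn Δ m).filter fun D => ∃ r : ℕ, OO R r ∧ t ^ 8 < r ∧ ¬ GoodA r a D).card
      : ℕ) : ℝ) ≤ ((Dn Δ m \ XB Δ m).card : ℝ) +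
        ∑ r ∈ RR, (((XB Δ m).filter fun D => ¬ GoodA r a D).card : ℝ) := hcard
    _ ≤ ε / 4 * q ^ m + ∑ r ∈ RR, q ^ m * (4096 * n / t * zf (orderOf (2 : ZMod r)) + gt n r) :=
        add_le_add n1 (sum_le_sum hterm)
    _ = ε / 4 * q ^ m + q ^ m * (4096 * n / t * ∑ r ∈ RR, zf (orderOf (2 : ZMod r)) + ∑ r ∈ RR, gt n r) := by
        rw [← mul_sum, sum_add_distrib, ← mul_sum]
    _ ≤ ε / 4 * q ^ m + q ^ m * (ε / 4 + ε / 4) := by
        have g2 : 4096 * n / (t : ℝ) * ∑ r ∈ RR, zf (orderOf (2 : ZMod r)) ≤ ε / 4 :=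
          (mul_le_mul_of_nonneg_left hsum1 ht0).trans n2
        have g3 : 4096 * n / (t : ℝ) * ∑ r ∈ RR, zf (orderOf (2 : ZMod r)) + ∑ r ∈ RR, gt n r ≤
            ε / 4 + ε / 4 := add_le_add g2 hsum2
        have g4 := mul_le_mul_of_nonneg_left g3 hqn
        linarith
    _ ≤ ε * q ^ m := by nlinarith

end Pool.Agent.Q182.GJ
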